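import Pool.Agent.Run7.h151.Dim

/-!
# Zeros of rational cubic forms from flags over a number field

Let `F` be a cubic form over `ℚ` in `n` variables and `K` a number field of degree `d`. If in some
basis of `K ^ n` with weights `v` every monomial of `F` has weight at least `c`, and if `e` is a
degree with `d * ∑ v < (e + 1) * n` and `3 e < d c` (or `3 e ≤ d c + 2`, `3 e ≠ d c` and `d ≥ 3`),
then `F` has a nontrivial integer zero.
-/

set_option autoImplicit false

namespace Pool.Agent.Results.MP_facb15_nt.ConjugateFlags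

theorem result (n : ℕ) (F : MvPolynomial (Fin n) ℚ) (hF : F.IsHomogeneous 3)
    (K : Type) [Field K] [NumberField K] (b : Module.Basis (Fin n) K (Fin n → K))
    (v : Fin n → ℕ) (c e : ℕ)
    (hflag : ∀ m ∈ (MvPolynomial.aeval
        (fun i => ∑ j, MvPolynomial.C (b j i) * MvPolynomial.X j : Fin n → MvPolynomial (Fin n) K)
          F).support, c ≤ ∑ i, m i * v i)
    (hsum : Module.finrank ℚ K * ∑ i, v i < (e + 1) * n)
    (hdeg : 3 * e < Module.finrank ℚ K * c ∨
      (3 ≤ Module.finrank ℚ K ∧ 3 * e ≤ Module.finrank ℚ K * c + 2 ∧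
        3 * e ≠ Module.finrank ℚ K * c)) :
    ∃ x : Fin n → ℤ, x ≠ 0 ∧ MvPolynomial.eval (fun i => (x i : ℚ)) F = 0 :=
  Run7.h151.int_zero hF (Run7.h151.zero_of_flag hF b v c e hflag hsum hdeg)

end Pool.Agent.Results.MP_facb15_nt.ConjugateFlags
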