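import Pool.Agent.Run7.h151.Hess

/-!
# Zeros of rational cubic forms with a family of singular points of small Hessian rank

Let `F` be a cubic form over `ℚ` and `z` a nonzero common zero of its first partial derivatives in
an extension of `ℚ`. If `2 r < s + 3`, where `r` is the rank of the Hessian matrix at `z` and
`ℚ(z)` has transcendence degree at least `s`, then `F` has a nontrivial integer zero.
-/

set_option autoImplicit false

namespace Pool.Agent.Results.MP_facb15_nt.SingularFamilies

theorem result (n : ℕ) (F : MvPolynomial (Fin n) ℚ) (hF : F.IsHomogeneous 3)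
    (L : Type) [Field L] [CharZero L] (z : Fin n → L) (hz0 : z ≠ 0)
    (hz : ∀ i, MvPolynomial.aeval z (MvPolynomial.pderiv i F) = 0)
    (s : ℕ) (hs : (s : Cardinal) ≤ Algebra.trdeg ℚ (Algebra.adjoin ℚ (Set.range z)))
    (hr : 2 * (Matrix.of fun i j =>
      MvPolynomial.aeval z (MvPolynomial.pderiv i (MvPolynomial.pderiv j F))).rank < s + 3) :
    ∃ x : Fin n → ℤ, x ≠ 0 ∧ MvPolynomial.eval (fun i => (x i : ℚ)) F = 0 :=
  Run7.h151.int_zero hF (Run7.h151.zero_of_hess hF z hz0 hz s hs hr)

end Pool.Agent.Results.MP_facb15_nt.SingularFamilies
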